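import Pool.Agent.Helper21.CT.KTN

/-!
Row MZ1: the machine without a tail (depth 1, only the height): all three kappas are exact
numbers.
-/

set_option autoImplicit false
set_option exponentiation.threshold 4000
noncomputable section
namespace Pool.Agent.Helper21.KTE

open Pool.Agent.Helper90.C75 (Vt mulT avg wtT bt avg_add avg_const avg_T_succ Mod Wts)
open Pool.Agent.Helper90.KMT
open Pool.Agent.Helper90.KMO (UU UU_pos zv cz andB_t zv_p)
open Pool.Agent.Helper17.KPT hiding Rb PI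
open Pool.Agent.Helper86.C75 (Z)
open Pool.Agent.Helper86.CX (Hm ev Cx P9 VR SE andB hs evC)
open Pool.Agent.Helper86.CT (N3 DF Alg Rw Mo Mc Mq Pr Cls clsOK mkCls Vx W0 W1 W2 W3 W4 nxW LT2 ssV
  CellT yN y1 y2 y3 y4 chkDT chkPcT chCell uM zM addM xAM xAOK K1 K2 K3 K4 Q1m Q2m Q3m Q4m
  A0 A1 A2 A3 A4)
open Pool.Agent.Helper21.KRN

/-- NO TAIL: all three kappas exact (`qd1` is never used) -/
theorem MZ1 : MZ 0 l1 (nlf lf0) (nmf 0 mf0) l1 l1 l1 s1 s1 s1 s1 K1 Q1m cN1 rC1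
    Pool.Agent.Helper86.CT.S1 W1 y1 qd1 rt1 := by
  refine ⟨MX1, fun _ _ h => sv_1 h, WX1, YLW.top A0_ok SHL0, RC1, ?_, RTL1⟩
  intro j hj
  exact absurd hj (Nat.not_lt_zero j)

end Pool.Agent.Helper21.KTE
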